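import Pool.Agent.Helper53.CTG.Goals

/-!
# PROJECT CTG (MP_8b4d68_lc), packet FM: malformed words
-/

set_option autoImplicit false

namespace Pool.Agent.Helper19.CTG

open Pool.Agent.Helper53.CTG
open Pool.Agent.Helper1.TE (cif codeB NumMach)
open Pool.Agent.Helper65.LinSpace (dig tab nrec ifz eq01 le01 lt01 capPow Ctx)

/-- the counter of a state. -/
def cnt (x : Sta) : ℕ :=
  if x.mo = 0 then x.N else if x.mo = 1 then x.q else if x.mo = 2 then x.b else
    if x.mo = 3 then x.c else x.u

theorem len_of_some {w : List Bool} {i : ℕ} (h : w[i]? = some true) : i < w.length := by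
  by_contra hc
  rw [List.getElem?_eq_none (by omega)] at h
  cases h

theorem ones_le {w : List Bool} {s n : ℕ} (h1 : Ones w s n) : n ≤ w.length := by
  rcases Nat.eq_zero_or_pos n with rfl | hp
  · exact Nat.zero_le _
  · have := len_of_some (h1 (n - 1) (by omega))
    omega

theorem nx_zero (ok : ℕ → ℕ → ℕ → ℕ → ℕ) (tst : ℕ → ℕ) (mal : ℕ) (w : List Bool) (x : Sta) :
    (machM ok tst mal).nx w x 0 = nextN ok tst mal x (codeB w[addrM x]?) 0 := by
  show nextM ok tst mal x (codeB w[addrM x]?) 0 = _
  unfold nextM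
  rw [Nat.zero_mul]
  rfl

theorem cif_ne {β : Type} {c : ℕ} (hc : c ≠ 0) (x y : β) : cif c x y = y := if_neg hc

theorem mstep (ok : ℕ → ℕ → ℕ → ℕ → ℕ) (tst : ℕ → ℕ) (mal : ℕ) (w : List Bool)
    (hmal : mal ≠ 0) (x : Sta) (hx : Inv ok tst mal w x) (hm : x.mo ≤ 4) :
    (machM ok tst mal).nx w x 0 = accS ∨ ((machM ok tst mal).nx w x 0).mo = 5 ∨
      (((machM ok tst mal).nx w x 0).mo ≤ 4 ∧
        (2 * w.length + 3) * x.mo + cnt x <
          (2 * w.length + 3) * ((machM ok tst mal).nx w x 0).mo +
            cnt ((machM ok tst mal).nx w x 0)) := by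
  rw [nx_zero]
  set L := w.length with hL
  generalize hy : codeB w[addrM x]? = y
  cases hx with
  | rej => exact absurd hm (by decide)
  | m0 N h1 =>
    have hh : N ≤ L := ones_le h1
    rcases y with _ | _ | y
    · left
      show cif mal rejS accS = accS
      exact cif_ne hmal _ _
    · right; right
      refine ⟨by show (1 : ℕ) ≤ 4; decide, ?_⟩
      show (2 * L + 3) * 0 + N < (2 * L + 3) * 1 + 0
      omega
    · right; right
      refine ⟨by show (0 : ℕ) ≤ 4; decide, ?_⟩
      show (2 * L + 3) * 0 + N < (2 * L + 3) * 0 + (N + 1)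
      omega
  | m1 N q h1 =>
    have hh : q ≤ L := ones_le h1.2.2
    rcases y with _ | _ | y
    · left
      show cif mal rejS accS = accS
      exact cif_ne hmal _ _
    · right; right
      refine ⟨by show (2 : ℕ) ≤ 4; decide, ?_⟩
      show (2 * L + 3) * 1 + q < (2 * L + 3) * 2 + 0
      omega
    · right; right
      refine ⟨by show (1 : ℕ) ≤ 4; decide, ?_⟩
      show (2 * L + 3) * 1 + q < (2 * L + 3) * 1 + (q + 1)
      omega
  | m2 N q b h1 =>
    have hh : b ≤ L := ones_le h1.2.2
    rcases y with _ | _ | y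
    · left
      show cif mal rejS accS = accS
      exact cif_ne hmal _ _
    · right; right
      refine ⟨by show (3 : ℕ) ≤ 4; decide, ?_⟩
      show (2 * L + 3) * 2 + b < (2 * L + 3) * 3 + 0
      omega
    · right; right
      refine ⟨by show (2 : ℕ) ≤ 4; decide, ?_⟩
      show (2 * L + 3) * 2 + b < (2 * L + 3) * 2 + (b + 1)
      omega
  | m3 N q b c h1 =>
    have hh : c ≤ L := ones_le h1.2.2
    rcases y with _ | _ | y
    · left
      show cif mal rejS accS = accS
      exact cif_ne hmal _ _
    · have e : nextN ok tst mal (hdr 3 N q b c 0 0) (0 + 1) 0 =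
          cif (q * le01 q N * b * le01 c b * ok N q b c) (cif mal rejS accS)
            (hdr 4 N q b c 0 1) := rfl
      rw [e]
      rcases Nat.eq_zero_or_pos (q * le01 q N * b * le01 c b * ok N q b c) with hz | hz
      · left
        rw [hz]
        exact cif_ne hmal _ _
      · right; right
        rw [cif_ne hz.ne']
        refine ⟨by show (4 : ℕ) ≤ 4; decide, ?_⟩
        show (2 * L + 3) * 3 + c < (2 * L + 3) * 4 + 0
        omega
    · right; right
      refine ⟨by show (3 : ℕ) ≤ 4; decide, ?_⟩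
      show (2 * L + 3) * 3 + c < (2 * L + 3) * 3 + (c + 1)
      omega
  | m4 N q b c u h1 hu h2 =>
    rcases y with _ | y
    · left
      show cif mal rejS accS = accS
      exact cif_ne hmal _ _
    · have e : nextN ok tst mal (hdr 4 N q b c u (2 ^ u)) (y + 1) 0 =
          cif (N + b - u) (hdr 5 N q b c 0 1) (hdr 4 N q b c (u + 1) (2 * 2 ^ u)) := rfl
      rw [e]
      right
      rcases Nat.eq_zero_or_pos (N + b - u) with hz | hz
      · left
        rw [hz]
        rfl
      · right
        rw [cif_ne hz.ne']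
        refine ⟨by show (4 : ℕ) ≤ 4; decide, ?_⟩
        show (2 * L + 3) * 4 + u < (2 * L + 3) * 4 + (u + 1)
        omega
  | m5 N q b c u h1 hu => exact absurd hm (by show ¬ (5 : ℕ) ≤ 4; decide)
  | m6 N q b c u τ g t D X S A h1 hτ hu hg hD ht hX hS hC =>
    exact absurd hm (by show ¬ (6 : ℕ) ≤ 4; decide)
  | m7 h1 => exact absurd hm (by decide)

theorem cnt_le (ok : ℕ → ℕ → ℕ → ℕ → ℕ) (tst : ℕ → ℕ) (mal : ℕ) (w : List Bool)
    (x : Sta) (hx : Inv ok tst mal w x) (hm : x.mo ≤ 4) :
    (2 * w.length + 3) * x.mo + cnt x < (2 * w.length + 3) * 5 := by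
  cases hx with
  | rej => exact absurd hm (by decide)
  | m0 N h1 =>
    have hh := ones_le h1
    show (2 * w.length + 3) * 0 + N < _
    omega
  | m1 N q h1 =>
    have hh := ones_le h1.2.2
    show (2 * w.length + 3) * 1 + q < _
    omega
  | m2 N q b h1 =>
    have hh := ones_le h1.2.2
    show (2 * w.length + 3) * 2 + b < _
    omega
  | m3 N q b c h1 =>
    have hh := ones_le h1.2.2
    show (2 * w.length + 3) * 3 + c < _
    omega
  | m4 N q b c u h1 hu h2 =>
    have hN := ones_le h1.1.1.1.1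
    have hb := ones_le h1.1.1.2.2
    show (2 * w.length + 3) * 4 + u < _
    omega
  | m5 N q b c u h1 hu => exact absurd hm (by show ¬ (5 : ℕ) ≤ 4; decide)
  | m6 N q b c u τ g t D X S A h1 hτ hu hg hD ht hX hS hC =>
    exact absurd hm (by show ¬ (6 : ℕ) ≤ 4; decide)
  | m7 h1 => exact absurd hm (by decide)

theorem full_of_five {ok : ℕ → ℕ → ℕ → ℕ → ℕ} {tst : ℕ → ℕ} {mal : ℕ} {w : List Bool} {x : Sta}
    (hx : Inv ok tst mal w x) (hm : x.mo = 5) : ∃ N q b c, Full ok w N q b c := by
  cases hx with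
  | rej => exact absurd hm (by decide)
  | m0 N h1 => exact absurd hm (by show ¬ (0 : ℕ) = 5; decide)
  | m1 N q h1 => exact absurd hm (by show ¬ (1 : ℕ) = 5; decide)
  | m2 N q b h1 => exact absurd hm (by show ¬ (2 : ℕ) = 5; decide)
  | m3 N q b c h1 => exact absurd hm (by show ¬ (3 : ℕ) = 5; decide)
  | m4 N q b c u h1 hu h2 => exact absurd hm (by show ¬ (4 : ℕ) = 5; decide)
  | m5 N q b c u h1 hu => exact ⟨N, q, b, c, h1⟩
  | m6 N q b c u τ g t D X S A h1 hτ hu hg hD ht hX hS hC => exact ⟨N, q, b, c, h1⟩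
  | m7 h1 => exact absurd hm (by decide)

theorem gFM : GoalFM := by
  intro hI hU ok tst mal w hmal hno
  have key : ∀ n : ℕ, ∀ x : Sta, Inv ok tst mal w x → x.mo ≤ 4 →
      (machM ok tst mal).Reach w x →
      (2 * w.length + 3) * 5 - ((2 * w.length + 3) * x.mo + cnt x) ≤ n →
      (machM ok tst mal).Reach w accS := by
    intro n
    induction n with
    | zero =>
      intro x hx hm hr hn
      have := cnt_le ok tst mal w x hx hm
      omega
    | succ n ih =>
      intro x hx hm hr hn
      have hx' := hI hU ok tst mal w x 0 (by norm_num) hx (by omega)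
      have hr' : (machM ok tst mal).Reach w ((machM ok tst mal).nx w x 0) :=
        Relation.ReflTransGen.tail hr ⟨0, by norm_num, rfl⟩
      rcases mstep ok tst mal w hmal x hx hm with h | h | ⟨h, h'⟩
      · rwa [h] at hr'
      · exact absurd (full_of_five hx' h) hno
      · refine ih _ hx' h hr' ?_
        have := cnt_le ok tst mal w x hx hm
        omega
  refine key _ (hdr 0 0 0 0 0 0 0) (Inv.m0 0 fun i hi => absurd hi (Nat.not_lt_zero i))
    (Nat.zero_le _) Relation.ReflTransGen.refl le_rfl

end Pool.Agent.Helper19.CTG
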